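import Mathlib
import Pool.Agent.Helper1.LowComp

set_option autoImplicit false

open Filter Pool.Agent.Helper1.LowComp

namespace Pool.Agent.Results.MP_12a1af_nt.LowComplexity

/-- `factorComplexity B L` is the number of distinct factors (blocks of consecutive letters) of
length `L` of the characteristic word of `B`: the number of words `w` of length `L` for which
there is a position `x` such that `w i` holds iff `x + i ∈ B`, for all `i < L`. -/
noncomputable def factorComplexity (B : Set ℕ) (L : ℕ) : ℕ :=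
  {w : Fin L → Prop | ∃ x : ℕ, ∀ i : Fin L, w i ↔ x + (i : ℕ) ∈ B}.ncard

lemma factorComplexity_eq (B : Set ℕ) (L : ℕ) : factorComplexity B L = cplx B L := by
  have h : {w : Fin L → Prop | ∃ x : ℕ, ∀ i : Fin L, w i ↔ x + (i : ℕ) ∈ B} =
      (fun (Z : Finset ℕ) (i : Fin L) => (i : ℕ) ∈ Z) '' (Set.range (fun x => pat B x L)) := by
    ext w
    constructor
    · rintro ⟨x, hx⟩
      refine ⟨pat B x L, ⟨x, rfl⟩, ?_⟩
      funext i
      apply propext
      show (i : ℕ) ∈ pat B x L ↔ w i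
      rw [hx i, mem_pat]
      exact ⟨fun h => h.2, fun h => ⟨i.2, h⟩⟩
    · rintro ⟨_, ⟨x, rfl⟩, rfl⟩
      refine ⟨x, fun i => ?_⟩
      show (i : ℕ) ∈ pat B x L ↔ _
      rw [mem_pat]
      exact ⟨fun h => h.2, fun h => ⟨i.2, h⟩⟩
  unfold factorComplexity cplx
  rw [h, Set.InjOn.ncard_image]
  rintro _ ⟨x, rfl⟩ _ ⟨y, rfl⟩ hxy
  rw [pat_eq_iff]
  intro i hi
  have := congrFun hxy ⟨i, hi⟩
  simp only [mem_pat, eq_iff_iff] at this
  constructor
  · intro h; exact (this.1 ⟨hi, h⟩).2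
  · intro h; exact (this.2 ⟨hi, h⟩).2

lemma ncard_Iio (B : Set ℕ) (x : ℕ) : (B ∩ Set.Iio x).ncard = cnt B x := by
  classical
  unfold cnt
  rw [Nat.count_eq_card_filter_range, ← Set.ncard_coe_finset]
  congr 1
  ext i
  simp [and_comm]

lemma occ_one (B : Set ℕ) : Occ B 1 {0} = B := by
  ext p
  simp only [Occ, Set.mem_ofPred_eq]
  constructor
  · intro h
    have : 0 ∈ pat B p 1 := by rw [h]; simp
    rw [mem_pat] at this
    simpa using this.2
  · intro h
    ext i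
    rw [mem_pat, Finset.mem_singleton]
    constructor
    · rintro ⟨h1, _⟩; omega
    · rintro rfl; exact ⟨by omega, by simpa using h⟩

/-- **Erdős–Turán for relatively dense subsets of sets of low factor complexity.** -/
theorem result (A B : Set ℕ) (hAB : A ⊆ B) (d : ℕ) (ε δ : ℝ) (hδ : 0 ≤ δ)
    (hd : (1 - ε) * (1 + δ) ^ d < 1)
    (hB : ∀ᶠ L : ℕ in atTop, (factorComplexity B L : ℝ) ≤ (L : ℝ) ^ (1 + δ))
    (hA : ∀ γ : ℝ, 0 < γ → ∃ᶠ x : ℕ in atTop,
      (x : ℝ) ^ ε ≤ ((B ∩ Set.Iio x).ncard : ℝ) ∧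
      (x : ℝ) ^ (-γ) * ((B ∩ Set.Iio x).ncard : ℝ) ≤ ((A ∩ Set.Iio x).ncard : ℝ)) :
    ∃ n : ℕ, 2 ^ (d + 1) ≤ {p : ℕ × ℕ | p.1 ∈ A ∧ p.2 ∈ A ∧ p.1 + p.2 = n}.ncard := by
  obtain ⟨L0, hL0⟩ := eventually_atTop.1 hB
  -- a uniform constant
  set D : ℝ := 1 + ∑ n ∈ Finset.range L0, (cplx B n : ℝ) with hD
  have hD1 : 1 ≤ D := by
    rw [hD]
    have : (0 : ℝ) ≤ ∑ n ∈ Finset.range L0, (cplx B n : ℝ) :=
      Finset.sum_nonneg (fun _ _ => by positivity)
    linarith
  have hcp : ∀ n : ℕ, 1 ≤ n → (cplx B n : ℝ) ≤ D * (n : ℝ) ^ (1 + δ) := by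
    intro n hn
    have hn1 : (1 : ℝ) ≤ (n : ℝ) ^ (1 + δ) :=
      Real.one_le_rpow (by exact_mod_cast hn) (by linarith)
    rcases lt_or_ge n L0 with h | h
    · have h1 : (cplx B n : ℝ) ≤ D := by
        rw [hD]
        have := Finset.single_le_sum (f := fun n => (cplx B n : ℝ)) (s := Finset.range L0)
          (fun _ _ => by positivity) (Finset.mem_range.2 h)
        linarith
      nlinarith
    · have h1 := hL0 n h
      rw [factorComplexity_eq] at h1
      nlinarith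
  obtain ⟨γ, hγ, X0, hX0⟩ := main_ind B D δ (by linarith) hδ hcp d 1 ε hd
  obtain ⟨x, hx, hx1, hx2⟩ := (frequently_atTop.1 (hA γ hγ)) (max X0 1)
  have hxX : X0 ≤ x := le_trans (le_max_left _ _) hx
  have hxr : (1 : ℝ) ≤ x := by
    have : 1 ≤ x := le_trans (le_max_right _ _) hx
    exact_mod_cast this
  rw [ncard_Iio] at hx1 hx2
  rw [ncard_Iio] at hx2
  have hsep : Sep (Occ B 1 {0}) 1 1 1 0 := by
    intro p l hp hpl hcnt
    have : l ≠ 0 := by
      rintro rfl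
      simp at hcnt
    omega
  have hcube := hX0 x hxX 1 ((x : ℝ) ^ (-γ)) le_rfl
    (by rw [Nat.cast_one]; exact Real.one_le_rpow hxr hγ.le) le_rfl 1 {0} 0 A hsep
    (by rw [occ_one]; exact hAB) (by rw [occ_one]; exact hx1) (by rw [occ_one]; exact hx2)
  obtain ⟨q, S, F, h1, h2, h3, h4⟩ := hcube.exists_finset
  refine ⟨q + q + S, ?_⟩
  have hfin : {p : ℕ × ℕ | p.1 ∈ A ∧ p.2 ∈ A ∧ p.1 + p.2 = q + q + S}.Finite := by
    apply Set.Finite.subset (Finset.finite_toSet (Finset.HasAntidiagonal.antidiagonal (q + q + S)))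
    rintro ⟨a, b⟩ ⟨_, _, h⟩
    simpa using h
  have himg : (F.image (fun f => (q + f, q + (S - f))) : Finset (ℕ × ℕ)).card = 2 ^ (d + 1) := by
    rw [Finset.card_image_of_injective, h1]
    intro f f' h
    simp only [Prod.mk.injEq] at h
    omega
  rw [← himg, ← Set.ncard_coe_finset]
  apply Set.ncard_le_ncard _ hfin
  intro p hp
  rw [Finset.mem_coe, Finset.mem_image] at hp
  obtain ⟨f, hf, rfl⟩ := hp
  obtain ⟨h5, h6⟩ := h3 f hf
  refine ⟨h2 f hf, h2 _ h6, ?_⟩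
  show q + f + (q + (S - f)) = q + q + S
  omega

end Pool.Agent.Results.MP_12a1af_nt.LowComplexity
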